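import Pool.Agent.Helper3_PPX.Stmts

/-! PPX, module STB: existence of a second equation. -/

set_option autoImplicit false

universe u

namespace Pool.Agent.PPX.H39

open MvPolynomial

variable {k : Type u} [Field k]

/-- degree of the restriction to a line -/
theorem lin_deg (a b s t : k) (M : ℕ) (Q : P4 k) (h2 : degreeOf 2 Q ≤ M) (h3 : degreeOf 3 Q ≤ M) :
    (lin a b s t Q).natDegree ≤ 2 * M := by
  rw [lin, aeval_def, eval₂_eq']
  apply Polynomial.natDegree_sum_le_of_forall_le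
  intro m hm
  have e2 := (monomial_le_degreeOf 2 hm).trans h2
  have e3 := (monomial_le_degreeOf 3 hm).trans h3
  rw [Fin.prod_univ_four]
  simp only [Matrix.cons_val_zero, Matrix.cons_val_one, Matrix.cons_val]
  have t0 : ((algebraMap k (Polynomial k)) (coeff m Q)).natDegree ≤ 0 := by
    rw [Polynomial.algebraMap_eq, Polynomial.natDegree_C]
  have t1 : (Polynomial.C a ^ m 0).natDegree ≤ 0 := by
    rw [← Polynomial.C_pow, Polynomial.natDegree_C]
  have t2 : (Polynomial.C b ^ m 1).natDegree ≤ 0 := by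
    rw [← Polynomial.C_pow, Polynomial.natDegree_C]
  have t3 : ((Polynomial.X : Polynomial k) ^ m 2).natDegree ≤ m 2 := Polynomial.natDegree_X_pow_le _
  have t5 : (Polynomial.C t - Polynomial.C s * Polynomial.X : Polynomial k).natDegree ≤ 1 := by
    refine (Polynomial.natDegree_sub_le _ _).trans (max_le ?_ ?_)
    · rw [Polynomial.natDegree_C]; omega
    · exact (Polynomial.natDegree_C_mul_le _ _).trans Polynomial.natDegree_X_le
  have t4 : ((Polynomial.C t - Polynomial.C s * Polynomial.X : Polynomial k) ^ m 3).natDegree ≤ m 3 := by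
    refine Polynomial.natDegree_pow_le.trans ?_
    calc m 3 * _ ≤ m 3 * 1 := Nat.mul_le_mul_left _ t5
      _ = m 3 := mul_one _
  have s1 := Polynomial.natDegree_mul_le_of_le (Polynomial.natDegree_mul_le_of_le
    (Polynomial.natDegree_mul_le_of_le t1 t2) t3) t4
  exact (Polynomial.natDegree_mul_le_of_le t0 s1).trans (by omega)

/-- rank and nullity -/
theorem hh_add (v : Ideal (P4 k)) (W : Submodule k (P4 k)) [Module.Finite k W] :
    Module.finrank k W = hh v W + Module.finrank k (W ⊓ v.restrictScalars k : Submodule k (P4 k)) := by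
  set f := (Ideal.Quotient.mkₐ k v).toLinearMap with hf
  have h1 := LinearMap.finrank_range_add_finrank_ker (f.domRestrict W)
  have h2 : LinearMap.range (f.domRestrict W) = W.map f := by
    rw [LinearMap.range_domRestrict]
  have h3 : (LinearMap.ker (f.domRestrict W)).map W.subtype = W ⊓ v.restrictScalars k := by
    ext x
    simp only [Submodule.mem_map, LinearMap.mem_ker, Submodule.mem_inf]
    constructor
    · rintro ⟨⟨y, hy⟩, h, rfl⟩
      refine ⟨hy, ?_⟩
      rw [LinearMap.domRestrict_apply] at h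
      exact Ideal.Quotient.eq_zero_iff_mem.mp h
    · rintro ⟨hx, hv⟩
      refine ⟨⟨x, hx⟩, ?_, rfl⟩
      rw [LinearMap.domRestrict_apply]
      exact Ideal.Quotient.eq_zero_iff_mem.mpr hv
  have h4 : Module.finrank k (LinearMap.ker (f.domRestrict W)) =
      Module.finrank k (W ⊓ v.restrictScalars k : Submodule k (P4 k)) := by
    rw [← h3]
    exact (Submodule.equivMapOfInjective W.subtype W.subtype_injective _).finrank_eq
  rw [h2, h4] at h1
  exact h1.symm

theorem stb (h1 : BoxStmt.{u}) (h2 : UppStmt.{u}) (h3 : NvaStmt.{u}) (h4 : SbaStmt.{u}) :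
    StbStmt.{u} := by
  intro k _ N₁ N₂ a s b t K₀ M₀ v D hS hGP hN1 K d₁ d₂ hK hNN hN1K hN2 hAdm R hRv hRi hRQ
  by_contra hcon
  push Not at hcon
  obtain ⟨hb1, hb2, -⟩ := h1
  have hbox := hb1 (k := k) (![d₁, d₂, 2 * K, 2 * K] : Fin 4 → ℕ)
  have hdR := (hbox.1 R).mp hRQ
  have r0 : degreeOf 0 R ≤ d₁ := hdR 0
  have r1 : degreeOf 1 R ≤ d₂ := hdR 1
  have r2 : degreeOf 2 R ≤ 2 * K := hdR 2
  have r3 : degreeOf 3 R ≤ 2 * K := hdR 3
  have hprime := hS.prime
  -- some degree in `θ, Λ`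
  have hr23 : 1 ≤ degreeOf 2 R + degreeOf 3 R := by
    by_contra h
    have e2 : degreeOf 2 R = 0 := by omega
    have e3 : degreeOf 3 R = 0 := by omega
    have hvars : (R.vars : Set (Fin 4)) ⊆ Set.range (![0, 1] : Fin 2 → Fin 4) := by
      intro i hi
      have hi' : degreeOf i R ≠ 0 := by
        intro h0
        rw [Finset.mem_coe, mem_vars] at hi
        obtain ⟨m, hm, hmi⟩ := hi
        have := monomial_le_degreeOf i hm
        rw [h0] at this
        exact (Finsupp.mem_support_iff.mp hmi) (by omega)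
      fin_cases i
      · exact ⟨0, rfl⟩
      · exact ⟨1, rfl⟩
      · exact absurd e2 hi'
      · exact absurd e3 hi'
    obtain ⟨F, hF⟩ := exists_rename_eq_of_vars_subset_range R (![0, 1] : Fin 2 → Fin 4)
      (by decide) hvars
    have hF' : inc F = R := hF
    have := hS.plane F (by rw [hF']; exact hRv)
    rw [this, map_zero] at hF'
    exact hRi.ne_zero hF'.symm
  obtain ⟨m, hm⟩ : ∃ m, m = 200 * K ^ 3 := ⟨_, rfl⟩
  rw [← hm] at hAdm hcon
  have hbm := hb1 (k := k) (![d₁, d₂, m, m] : Fin 4 → ℕ)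
  have hfin : Module.Finite k (Qd k d₁ d₂ m) := hbm.2.1
  have hdim : Module.finrank k (Qd k d₁ d₂ m) = (d₁ + 1) * (d₂ + 1) * (m + 1) * (m + 1) := by
    have := hbm.2.2
    rw [Fin.prod_univ_four] at this
    exact this
  have hKm : 2 * K ≤ m := by
    rw [hm]
    have : K ≤ K ^ 3 := Nat.le_self_pow (by norm_num) K
    omega
  have hsum := hh_add v (Qd k d₁ d₂ m)
  have hker : Module.finrank k (Qd k d₁ d₂ m ⊓ v.restrictScalars k : Submodule k (P4 k)) ≤
      (d₁ + 1 - degreeOf 0 R) * (d₂ + 1 - degreeOf 1 R) * (m + 1 - degreeOf 2 R) *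
        (m + 1 - degreeOf 3 R) := by
    have h5 := hb2 (k := k) (![d₁, d₂, m, m] : Fin 4 → ℕ) R hRi.ne_zero (by
      intro i
      fin_cases i
      · exact r0
      · exact r1
      · exact r2.trans hKm
      · exact r3.trans hKm) (Qd k d₁ d₂ m ⊓ v.restrictScalars k) inf_le_left
      (fun Q hQ => hcon Q hQ.2 hQ.1)
    rw [Fin.prod_univ_four] at h5
    exact h5
  have hlin : ∀ Q ∈ Qd k d₁ d₂ m, ∀ i j, (lin (a i) (b j) (s i) (t j) Q).natDegree ≤ 2 * m := by
    intro Q hQ i j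
    have hQd := (hbm.1 Q).mp hQ
    exact lin_deg _ _ _ _ m Q (hQd 2) (hQd 3)
  -- first inequality
  have hup1 := h2 a s b t K₀ M₀ v D hS d₁ d₂ m (2 * m) (4 * K) hAdm (Qd k d₁ d₂ m) le_rfl hlin
  obtain ⟨nb, hnb⟩ : ∃ nb, nb = {q : Fin N₁ × Fin N₂ | Big (D q.1 q.2) (4 * K)}.ncard := ⟨_, rfl⟩
  rw [← hnb] at hup1
  have hlow1 : (d₁ + 1) * (d₂ + 1) * (m + 1) ≤ hh v (Qd k d₁ d₂ m) := by
    have e1 : (m + 1 - degreeOf 2 R) * (m + 1 - degreeOf 3 R) ≤ m * (m + 1) := by
      rcases Nat.eq_zero_or_pos (degreeOf 2 R) with h0 | h0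
      · have : 1 ≤ degreeOf 3 R := by omega
        calc (m + 1 - degreeOf 2 R) * (m + 1 - degreeOf 3 R) ≤ (m + 1) * m :=
              Nat.mul_le_mul (Nat.sub_le _ _) (by omega)
          _ = m * (m + 1) := mul_comm _ _
      · exact Nat.mul_le_mul (by omega) (Nat.sub_le _ _)
    have e2 : (d₁ + 1 - degreeOf 0 R) * (d₂ + 1 - degreeOf 1 R) * (m + 1 - degreeOf 2 R) *
        (m + 1 - degreeOf 3 R) ≤ (d₁ + 1) * (d₂ + 1) * (m * (m + 1)) := by
      rw [mul_assoc]
      exact Nat.mul_le_mul (Nat.mul_le_mul (Nat.sub_le _ _) (Nat.sub_le _ _)) e1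
    have e3 : (d₁ + 1) * (d₂ + 1) * (m + 1) * (m + 1) =
        (d₁ + 1) * (d₂ + 1) * (m + 1) + (d₁ + 1) * (d₂ + 1) * (m * (m + 1)) := by ring
    omega
  have hbig : N₁ * N₂ ≤ 4 * K * nb := by
    have f1 : (d₁ + 1) * (d₂ + 1) * (m + 1) ≤ (2 * m + 1) * nb + 4 * K * (N₁ * N₂) :=
      hlow1.trans hup1
    have f2 : N₁ * N₂ * (m + 1) ≤ K * (2 * m + 1) * nb + 4 * K ^ 2 * (N₁ * N₂) := by
      calc N₁ * N₂ * (m + 1) ≤ K * ((d₁ + 1) * (d₂ + 1)) * (m + 1) := Nat.mul_le_mul_right _ hNN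
        _ = K * ((d₁ + 1) * (d₂ + 1) * (m + 1)) := by ring
        _ ≤ K * ((2 * m + 1) * nb + 4 * K * (N₁ * N₂)) := Nat.mul_le_mul_left _ f1
        _ = _ := by ring
    have f3 : 16 * K ^ 2 ≤ 2 * m + 3 := by
      rw [hm]
      have : K ^ 2 ≤ K ^ 3 := Nat.pow_le_pow_right hK (by norm_num)
      omega
    by_contra hlt
    push Not at hlt
    have f4 : (2 * m + 1) * (4 * K * nb + 1) ≤ (2 * m + 1) * (N₁ * N₂) := Nat.mul_le_mul_left _ hlt
    have f5 : 16 * K ^ 2 * (N₁ * N₂) ≤ (2 * m + 3) * (N₁ * N₂) := Nat.mul_le_mul_right _ f3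
    nlinarith
  -- a row with many big ideals
  classical
  have hrow : ∃ i : Fin N₁, N₂ ≤ 4 * K * (Finset.univ.filter fun j : Fin N₂ => Big (D i j) (4 * K)).card := by
    by_contra hno
    push Not at hno
    have g1 : nb = ∑ i : Fin N₁, (Finset.univ.filter fun j : Fin N₂ => Big (D i j) (4 * K)).card := by
      rw [hnb, Set.ncard_eq_toFinset_card', Set.toFinset_ofPred, ← Finset.card_sigma]
      apply Finset.card_bij (fun q _ => (⟨q.1, q.2⟩ : Σ _ : Fin N₁, Fin N₂))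
      · intro q hq
        simpa using hq
      · intro q _ q' _ h
        simp only [Sigma.mk.injEq, heq_eq_eq] at h
        exact Prod.ext h.1 h.2
      · rintro ⟨i, j⟩ hq
        exact ⟨(i, j), by simpa using hq, rfl⟩
    have g2 : ∑ i : Fin N₁, 4 * K * (Finset.univ.filter fun j : Fin N₂ => Big (D i j) (4 * K)).card <
        ∑ _i : Fin N₁, N₂ := by
      apply Finset.sum_lt_sum_of_nonempty
      · exact ⟨⟨0, hN1⟩, Finset.mem_univ _⟩
      · intro i _
        exact hno i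
    rw [← Finset.mul_sum, ← g1, Finset.sum_const, Finset.card_univ, Fintype.card_fin, smul_eq_mul] at g2
    omega
  obtain ⟨i, hi⟩ := hrow
  obtain ⟨J, hJ⟩ : ∃ J, J = Finset.univ.filter fun j : Fin N₂ => Big (D i j) (4 * K) := ⟨_, rfl⟩
  rw [← hJ] at hi
  have hJ0 : ∀ j ∈ J, lin (a i) (b j) (s i) (t j) R = 0 := by
    intro j hj
    rw [hJ, Finset.mem_filter] at hj
    apply hj.2 _ (hS.line R hRv i j)
    have := lin_deg (a i) (b j) (s i) (t j) (2 * K) R r2 r3
    omega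
  have hne : aeval ![C (a i), X 1, X 2, X 3] R ≠ (0 : P4 k) := by
    intro h0
    have hass := h3 (a i) R hRi h0
    have hmem : (X 0 - C (a i) : P4 k) ∈ v := by
      obtain ⟨w, hw⟩ := hass
      rw [← hw]
      exact v.mul_mem_right _ hRv
    have hinc : inc (X 0 - C (a i) : MvPolynomial (Fin 2) k) = (X 0 - C (a i) : P4 k) := by
      simp [inc]
    have hz := hS.plane (X 0 - C (a i)) (by rw [hinc]; exact hmem)
    have hev := congrArg (eval (fun _ => a i + 1)) hz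
    simp at hev
  obtain ⟨G, hG0, hG1, hG2, hG3⟩ := h4 (a i) (s i) b t R hne J hJ0
  have hN2b : N₂ < 4 * K * (2 * K + 1) * (degreeOf 1 R + 1) := by
    by_cases hc : 2 * ((degreeOf 1 R + 1) * (2 * K + 1)) ≤ N₂
    · have hlt := hGP (degreeOf 1 R) (2 * K) G J hc hG0 hG1 (hG2.trans r3) hG3
      calc N₂ ≤ 4 * K * J.card := hi
        _ < 4 * K * ((degreeOf 1 R + 1) * (2 * K + 1)) := by
            apply Nat.mul_lt_mul_of_pos_left hlt (by omega)
        _ = _ := by ring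
    · push Not at hc
      calc N₂ < 2 * ((degreeOf 1 R + 1) * (2 * K + 1)) := hc
        _ ≤ 4 * K * ((degreeOf 1 R + 1) * (2 * K + 1)) := Nat.mul_le_mul_right _ (by omega)
        _ = _ := by ring
  have hr1 : 1 ≤ degreeOf 1 R := by
    by_contra h0
    have : degreeOf 1 R = 0 := by omega
    rw [this] at hN2b
    omega
  have hN2c : N₂ < 8 * K * (2 * K + 1) * degreeOf 1 R := by
    calc N₂ < 4 * K * (2 * K + 1) * (degreeOf 1 R + 1) := hN2b
      _ ≤ 4 * K * (2 * K + 1) * (2 * degreeOf 1 R) := Nat.mul_le_mul_left _ (by omega)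
      _ = _ := by ring
  -- second inequality
  have hup2 := h2 a s b t K₀ M₀ v D hS d₁ d₂ m (2 * m) 0 hAdm (Qd k d₁ d₂ m) le_rfl hlin
  have hcard : {q : Fin N₁ × Fin N₂ | Big (D q.1 q.2) 0}.ncard ≤ N₁ * N₂ := by
    calc _ ≤ (Set.univ : Set (Fin N₁ × Fin N₂)).ncard := Set.ncard_le_ncard (Set.subset_univ _)
      _ = N₁ * N₂ := by
          rw [Set.ncard_univ, Nat.card_eq_fintype_card, Fintype.card_prod, Fintype.card_fin,
            Fintype.card_fin]
  have hlow2 : (d₁ + 1) * degreeOf 1 R * (m + 1) * (m + 1) ≤ hh v (Qd k d₁ d₂ m) := by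
    have e2 : (d₁ + 1 - degreeOf 0 R) * (d₂ + 1 - degreeOf 1 R) * (m + 1 - degreeOf 2 R) *
        (m + 1 - degreeOf 3 R) ≤ (d₁ + 1) * (d₂ + 1 - degreeOf 1 R) * (m + 1) * (m + 1) :=
      Nat.mul_le_mul (Nat.mul_le_mul (Nat.mul_le_mul_right _ (Nat.sub_le _ _)) (Nat.sub_le _ _))
        (Nat.sub_le _ _)
    obtain ⟨e, he⟩ : ∃ e, d₂ + 1 - degreeOf 1 R = e := ⟨_, rfl⟩
    have he' : d₂ + 1 = e + degreeOf 1 R := by omega
    rw [he] at e2 hker
    rw [he'] at hdim
    have e3 : (d₁ + 1) * (e + degreeOf 1 R) * (m + 1) * (m + 1) =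
        (d₁ + 1) * degreeOf 1 R * (m + 1) * (m + 1) + (d₁ + 1) * e * (m + 1) * (m + 1) := by ring
    omega
  have g1 : (d₁ + 1) * degreeOf 1 R * (m + 1) * (m + 1) ≤ (2 * m + 1) * (K * (d₁ + 1) * N₂) := by
    calc _ ≤ (2 * m + 1) * {q : Fin N₁ × Fin N₂ | Big (D q.1 q.2) 0}.ncard + 0 * (N₁ * N₂) :=
          hlow2.trans hup2
      _ = (2 * m + 1) * {q : Fin N₁ × Fin N₂ | Big (D q.1 q.2) 0}.ncard := by ring
      _ ≤ (2 * m + 1) * (N₁ * N₂) := Nat.mul_le_mul_left _ hcard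
      _ ≤ _ := Nat.mul_le_mul_left _ (Nat.mul_le_mul_right _ hN1K)
  have g2 : degreeOf 1 R * (m + 1) * (m + 1) ≤ (2 * m + 1) * (K * N₂) := by
    apply Nat.le_of_mul_le_mul_left (c := d₁ + 1) _ (by omega)
    calc (d₁ + 1) * (degreeOf 1 R * (m + 1) * (m + 1)) =
          (d₁ + 1) * degreeOf 1 R * (m + 1) * (m + 1) := by ring
      _ ≤ (2 * m + 1) * (K * (d₁ + 1) * N₂) := g1
      _ = _ := by ring
  have g3 : (2 * m + 1) * (K * N₂) < (2 * m + 1) * (K * (8 * K * (2 * K + 1) * degreeOf 1 R)) := by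
    apply Nat.mul_lt_mul_of_pos_left _ (by omega)
    exact Nat.mul_lt_mul_of_pos_left hN2c hK
  have g4 : (m + 1) * (m + 1) < (2 * m + 1) * (K * (8 * K * (2 * K + 1))) := by
    apply Nat.lt_of_mul_lt_mul_left (a := degreeOf 1 R)
    calc degreeOf 1 R * ((m + 1) * (m + 1)) = degreeOf 1 R * (m + 1) * (m + 1) := by ring
      _ ≤ (2 * m + 1) * (K * N₂) := g2
      _ < (2 * m + 1) * (K * (8 * K * (2 * K + 1) * degreeOf 1 R)) := g3
      _ = _ := by ring
  have g5 : (2 * m + 1) * (K * (8 * K * (2 * K + 1))) ≤ (m + 1) * (48 * K ^ 3) := by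
    calc (2 * m + 1) * (K * (8 * K * (2 * K + 1))) ≤ (2 * (m + 1)) * (K * (8 * K * (3 * K))) :=
          Nat.mul_le_mul (by omega) (Nat.mul_le_mul_left _ (Nat.mul_le_mul_left _ (by omega)))
      _ = _ := by ring
  have g6 : m + 1 < 48 * K ^ 3 := Nat.lt_of_mul_lt_mul_left (a := m + 1) (g4.trans_le g5)
  omega

end Pool.Agent.PPX.H39
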